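import Pool.Agent.W2helper37.SG.Stm2

/-!
# Project SG, piece BRA
-/

set_option autoImplicit false
set_option linter.unusedSectionVars false
set_option linter.unusedSimpArgs false
set_option backward.isDefEq.respectTransparency false
set_option backward.defeqAttrib.useBackward true

open CategoryTheory Limits MonoidalCategory
open Functor.LaxMonoidal Functor.OplaxMonoidal
open Pool.Agent.Y112.SR Pool.Agent.Y112.KD Pool.Agent.Y112.SC
open Pool.Agent.W2helper37.SG

namespace Pool.Agent.W4helper65.SG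

universe v u w

section

variable {C : Type u} [Category.{v} C] [Preadditive C] [Linear ℚ C] [MonoidalCategory C]
  [MonoidalPreadditive C] [MonoidalLinear ℚ C] [SymmetricCategory C] [RightRigidCategory C]
  {K : Type w} [Field K] (R : SuperRealisation C K)

/-- the matrices of the actions on `mix` -/
noncomputable def AA {ι : Type} (o : ι → Bool) {M : C} (N : C)
    (AM : ι → ι → Module.End K (R.H.obj M)) (AD : ι → ι → Module.End K (R.H.obj Mᘁ)) :
    ∀ l : List Bool, ι → ι → Module.End K (R.H.obj (mix M N l))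
  | [] => fun _ _ => 0
  | true :: l => tenA R o AM (AA o N AM AD l)
  | false :: l => tenA R o AD (AA o N AM AD l)

theorem map_wl_bx {Q X X' : C} (f : X ⟶ X') (c : R.H.obj Q ⟶ R.H.obj Q)
    (d : R.H.obj X ⟶ R.H.obj X) (d' : R.H.obj X' ⟶ R.H.obj X')
    (h : R.H.map f ≫ d' = d ≫ R.H.map f) :
    R.H.map (Q ◁ f) ≫ bx R c d' = bx R c d ≫ R.H.map (Q ◁ f) := by
  have e1 : R.H.map (Q ◁ f) = δ R.H Q X ≫ (𝟙 _ ⊗ₘ R.H.map f) ≫ μ R.H Q X' := by
    rw [id_tensorHom, Functor.Monoidal.map_whiskerLeft]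
  rw [e1, bx, bx]
  simp only [Category.assoc, Functor.Monoidal.μ_δ_assoc]
  rw [tensorHom_comp_tensorHom_assoc, tensorHom_comp_tensorHom_assoc, Category.id_comp,
    Category.comp_id, h]

theorem tenA_wl {ι : Type} (o : ι → Bool) {Q X X' : C} (f : X ⟶ X')
    (A : ι → ι → Module.End K (R.H.obj Q)) (B : ι → ι → Module.End K (R.H.obj X))
    (B' : ι → ι → Module.End K (R.H.obj X')) (k i : ι)
    (h : (R.H.map f).hom ∘ₗ B k i = B' k i ∘ₗ (R.H.map f).hom) :
    (R.H.map (Q ◁ f)).hom ∘ₗ tenA R o A B k i = tenA R o A B' k i ∘ₗ (R.H.map (Q ◁ f)).hom := by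
  have h1 : R.H.map f ≫ ModuleCat.ofHom (B' k i) = ModuleCat.ofHom (B k i) ≫ R.H.map f := by
    apply ModuleCat.hom_ext
    rw [ModuleCat.hom_comp, ModuleCat.hom_comp]
    exact h.symm
  have h2 := map_wl_bx R f (ModuleCat.ofHom (A k i)) (𝟙 _) (𝟙 _) (by
    rw [Category.id_comp, Category.comp_id])
  have h3 := map_wl_bx R f (if o k = o i then 𝟙 _ else R.par Q) _ _ h1
  have h4 : R.H.map (Q ◁ f) ≫ (bx R (ModuleCat.ofHom (A k i)) (𝟙 _) +
      bx R (if o k = o i then 𝟙 _ else R.par Q) (ModuleCat.ofHom (B' k i))) =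
      (bx R (ModuleCat.ofHom (A k i)) (𝟙 _) +
      bx R (if o k = o i then 𝟙 _ else R.par Q) (ModuleCat.ofHom (B k i))) ≫
        R.H.map (Q ◁ f) := by
    rw [Preadditive.comp_add, Preadditive.add_comp, h2, h3]
  have h5 := congrArg ModuleCat.Hom.hom h4
  rw [ModuleCat.hom_comp, ModuleCat.hom_comp] at h5
  exact h5.symm

theorem map_smul_eq {X Y : C} {x y : X ⟶ Y} (h : R.H.map x = R.H.map y) (t : ℚ) :
    R.H.map (t • x) = R.H.map (t • y) := by
  have e : ∀ z : X ⟶ Y, t • z = z ≫ (t • 𝟙 Y) := by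
    intro z
    rw [Linear.comp_smul, Category.comp_id]
  rw [e x, e y, Functor.map_comp, Functor.map_comp, h]

end

theorem p_bra : P_BRA.{v, u, w} := by
  intro hUNI hSEL hDUL hBRX hTEN hTER hEQV hBSW hBCO C _ _ _ _ _ _ _ _ K _ R M N l l' f hf
  obtain ⟨ι, _, _, o, e, hU⟩ := hUNI C K R M
  obtain ⟨hM, -⟩ := hSEL C K R M ι o e hU
  obtain ⟨e', -, hD, -⟩ := hDUL C K R M ι o e hU
  set AM : ι → ι → Module.End K (R.H.obj M) := fun k i => cc K (o i) (o k) • (e k i).hom with hAM
  set AD : ι → ι → Module.End K (R.H.obj Mᘁ) := fun k i => -(sg K (o i)) • (e' i k).hom with hAD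
  have hRe : ∀ l, Re R e (om M N l) (AA R o N AM AD l) := by
    intro l
    induction l with
    | nil =>
      unfold Re
      rw [om, Functor.map_zero]
      symm
      apply Finset.sum_eq_zero
      intro i _
      apply Finset.sum_eq_zero
      intro k _
      exact bx_zero_right R _
    | cons b l ih =>
      cases b with
      | true => exact hTEN hBRX C K R M M (mix M N l) ι o e hU _ _ _ _ hM.re ih
      | false => exact hTEN hBRX C K R M Mᘁ (mix M N l) ι o e hU _ _ _ _ hD.re ih
  have key : ∀ k i, (R.H.map f).hom ∘ₗ AA R o N AM AD l k i =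
      AA R o N AM AD l' k i ∘ₗ (R.H.map f).hom := by
    induction hf with
    | one l =>
      intro k i
      rw [CategoryTheory.Functor.map_id]
      rfl
    | comp _ _ ihf ihg =>
      intro k i
      rw [Functor.map_comp, ModuleCat.hom_comp, LinearMap.comp_assoc, ihf k i,
        ← LinearMap.comp_assoc, ihg k i, LinearMap.comp_assoc]
    | add _ _ ihf ihg =>
      intro k i
      rw [Functor.map_add, ModuleCat.hom_add, LinearMap.add_comp, LinearMap.comp_add, ihf k i,
        ihg k i]
    | @smul l l' t f _ ih =>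
      have h1 := (hEQV C K R M _ _ ι o e hU _ _ _ _ (hRe l) (hRe l') f).2 ih
      refine (hEQV C K R M _ _ ι o e hU _ _ _ _ (hRe l) (hRe l') (t • f)).1 ?_
      rw [MonoidalLinear.whiskerLeft_smul, Linear.smul_comp, Linear.comp_smul]
      exact map_smul_eq R h1 t
    | whiskerT _ ih =>
      intro k i
      exact tenA_wl R o _ AM _ _ k i (ih k i)
    | whiskerF _ ih =>
      intro k i
      exact tenA_wl R o _ AD _ _ k i (ih k i)
    | swapTT l =>
      intro k i
      exact hBSW C K R M M (mix M N l) ι o AM AM _ hM.par hM.par k i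
    | swapTF l =>
      intro k i
      exact hBSW C K R M Mᘁ (mix M N l) ι o AM AD _ hM.par hD.par k i
    | swapFT l =>
      intro k i
      exact hBSW C K R Mᘁ M (mix M N l) ι o AD AM _ hD.par hM.par k i
    | swapFF l =>
      intro k i
      exact hBSW C K R Mᘁ Mᘁ (mix M N l) ι o AD AD _ hD.par hD.par k i
    | coev l =>
      intro k i
      exact (hBCO C K R M (mix M N l) ι o e hU AD hD _).1 k i
    | evl l =>
      intro k i
      exact (hBCO C K R M (mix M N l) ι o e hU AD hD _).2 k i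
  exact (hEQV C K R M _ _ ι o e hU _ _ _ _ (hRe l) (hRe l') f).2 key

end Pool.Agent.W4helper65.SG
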